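import Pool.Agent.Helper69.MC.Fin

set_option autoImplicit false

/-!
# MP_9583f0_gt : essential films spanning two convex curves in parallel planes

`Γ = Gm K0 K1 h` is the union of two convex curves in parallel planes, `S` a singular minimal Plateau surface with boundary `Γ`.  `S` is an essential spanning set for some homotopy-closed set of curves if and only
if `S` defines a cell structure with exactly three cells in the slab; this holds for all area-minimizing films.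
-/

namespace Pool.Agent.Results.MP_9583f0_gt.EssentialFilms

open Pool.Agent.Helper31.CY Pool.Agent.Helper69.MF Pool.Agent.Helper69.MC

theorem result (K0 K1 : Set (ℝ × ℝ)) (h : ℝ) (h0 : 0 < h) (c0 : CB K0) (c1 : CB K1) (S : Set E3)
    (hS : MPS S (Gm K0 K1 h)) (hs : Sing S (Gm K0 K1 h)) :
    (∀ x ∈ S, x ∉ Gm K0 K1 h → x ∈ Sl h) ∧
    ((∃ 𝒞, HC (Gm K0 K1 h) 𝒞 ∧ Ess (Gm K0 K1 h) 𝒞 S) ↔ ∃ A : Fin 3 → Set E3, Cells K0 K1 h S A) ∧
    ((∃ 𝒞, HC (Gm K0 K1 h) 𝒞 ∧ Ess (Gm K0 K1 h) 𝒞 S) ↔ Ess (Gm K0 K1 h) (NT (Gm K0 K1 h)) S) ∧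
    ((∃ 𝒞, HC (Gm K0 K1 h) 𝒞 ∧ Ess (Gm K0 K1 h) 𝒞 S) →
      ∀ p ∈ S, p ∉ Gm K0 K1 h → ¬ ModelAt S Tcone p) ∧
    ∀ 𝒞, HC (Gm K0 K1 h) 𝒞 → Mnz 𝒞 S → Ess (Gm K0 K1 h) 𝒞 S ∧ Mnz (NT (Gm K0 K1 h)) S :=
  essential K0 K1 h h0 c0 c1 S hS hs

end Pool.Agent.Results.MP_9583f0_gt.EssentialFilms
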