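import Pool.Agent.Helper69.MF.All

set_option autoImplicit false

/-!
# MP_9583f0_gt : area-minimizing films spanning two coaxial circles

`Γ` is the union of two coaxial circles, `𝒞` a set of closed paths in the complement of `Γ` which is closed under free homotopy.  A minimal Plateau surface `S` (with `Y` and `T` points) with boundary
`Γ` which meets every path of `𝒞` and has the least area among all compact sets with this property is rotationally invariant; it is a pair of discs, a piece of a catenoid or `Cat_Y`.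
-/

namespace Pool.Agent.Results.MP_9583f0_gt.MinimizingFilms

open Pool.Agent.Helper31.CY Pool.Agent.Helper69.MF

theorem result (r0 r1 h : ℝ) (h0 : 0 < r0) (h1 : 0 < r1) (hh : 0 < h) (S : Set E3)
    (𝒞 : Set (unitInterval → E3)) (hC : HC (circ r0 0 ∪ circ r1 h) 𝒞)
    (hS : MPS S (circ r0 0 ∪ circ r1 h)) (hM : Mnz 𝒞 S) :
    RotInv S ∧ (Discs S r0 r1 h ∨ Catn S r0 r1 h ∨ CatY S r0 r1 h) ∧
      (Sing S (circ r0 0 ∪ circ r1 h) → CatY S r0 r1 h ∧ Nonempty (S ≃ₜ CY0)) :=
  minimizing r0 r1 h h0 h1 hh S 𝒞 hC hS hM

end Pool.Agent.Results.MP_9583f0_gt.MinimizingFilms
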