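import Pool.Agent.Helper31.CY.All

set_option autoImplicit false

/-!
# MP_9583f0_gt : minimal Plateau surfaces (with Y and T points) spanning two coaxial circles

The circles have the radii `r0, r1 > 0` and lie at the heights `0` and `h > 0`.  There are at most five
explicit minimal Plateau surfaces: two flat discs, at most two catenoid pieces, at most two slab pieces of
the Y-catenoid (the singular ones).  Every other minimal Plateau surface with this boundary has only
finitely many rotational symmetries and is not isolated, and then there are uncountably many.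
-/

namespace Pool.Agent.Results.MP_9583f0_gt.RigidPlateau

open Pool.Agent.Helper31.CY

theorem result (r0 r1 h : ℝ) (h0 : 0 < r0) (h1 : 0 < r1) (hh : 0 < h) :
    (∀ S : Set E3, Discs S r0 r1 h ∨ Catn S r0 r1 h ∨ CatY S r0 r1 h →
      MPS S (circ r0 0 ∪ circ r1 h)) ∧
    {S : Set E3 | Discs S r0 r1 h ∨ Catn S r0 r1 h ∨ CatY S r0 r1 h}.encard ≤ 5 ∧
    (∀ S : Set E3, CatY S r0 r1 h → Sing S (circ r0 0 ∪ circ r1 h) ∧ Nonempty (S ≃ₜ CY0)) ∧
    ∀ S : Set E3, MPS S (circ r0 0 ∪ circ r1 h) →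
      ((Discs S r0 r1 h ∨ Catn S r0 r1 h ∨ CatY S r0 r1 h) ∧
        (Sing S (circ r0 0 ∪ circ r1 h) → CatY S r0 r1 h)) ∨
      ({θ : ℝ | 0 ≤ θ ∧ θ < 2 * Real.pi ∧ rot θ '' S = S}.Finite ∧
        (∀ ε : ℝ, 0 < ε → ∃ S' : Set E3, MPS S' (circ r0 0 ∪ circ r1 h) ∧ S' ≠ S ∧
          Metric.hausdorffDist S S' < ε) ∧
        ¬ {S' : Set E3 | MPS S' (circ r0 0 ∪ circ r1 h)}.Countable) :=
  dichotomy r0 r1 h h0 h1 hh

end Pool.Agent.Results.MP_9583f0_gt.RigidPlateau
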